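import Mathlib
import Pool.Agent.J4.H13.GKZ.Final

set_option autoImplicit false

/-!
# The pairing of the solutions of better-behaved GKZ systems is nondegenerate for all parameters

`N = ℤ ^ r`, `v 1, …, v n` are lattice points of degree `1` (for a linear form `deg`), `C` is the cone
which they generate, `v0` is a point of the interior `C°` in general position. There is a nonzero
polynomial `D` such that at all points `x` with `D (x) ≠ 0` and **for all parameters** `β ∈ ℂ ^ r`: for
every nonzero local holomorphic solution `Φ` of `bbGKZ (C, β)` near `x` there is a solution `Ψ` of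
`bbGKZ (C°, -β)` near `x` with `⟨Φ, Ψ⟩ ≠ 0`, and conversely.
-/

namespace Pool.Agent.Results.MP_9d4c03_ag.NondegenerateAllParameters

open Pool.Agent.J4.H13.GKZ

theorem result (r n : ℕ) (v : Fin n → Fin r → ℤ) (deg : (Fin r → ℤ) →+ ℤ)
    (hdeg : ∀ i, deg (v i) = 1) (v0 : Fin r → ℝ) (hv0 : v0 ∈ interior (cone v))
    (hgp : GeneralPosition v v0) :
    ∃ D : MvPolynomial (Fin n) ℂ, D ≠ 0 ∧ ∀ x : Fin n → ℂ, MvPolynomial.eval x D ≠ 0 →
      ∀ β : Fin r → ℂ,
        (∀ Φ, IsSolution v (latC v) β x Φ → ¬ IsZero (latC v) x Φ →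
          ∃ Ψ, IsSolution v (latInt v) (-β) x Ψ ∧ pairing v deg v0 Φ Ψ x ≠ 0) ∧
        (∀ Ψ, IsSolution v (latInt v) (-β) x Ψ → ¬ IsZero (latInt v) x Ψ →
          ∃ Φ, IsSolution v (latC v) β x Φ ∧ pairing v deg v0 Φ Ψ x ≠ 0) :=
  main v deg hdeg v0 hv0 hgp

end Pool.Agent.Results.MP_9d4c03_ag.NondegenerateAllParameters
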